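import Pool.Agent.N703.DG.Core

/-!
# List-chromatic number of the doubled graph: `f(k) ≤ 2 d(k) + 1` (MP_069451_co)
-/

set_option autoImplicit false

namespace Pool.Agent.Results.MP_069451_co.TwiceDegree

open Pool.Agent.N703.DG

/-- Let `k ≥ 1` and let `d` be a real number such that every finite `k`-choosable graph has
average degree at most `d`. Then the maximum `f(k)` of `χ_ℓ(G[I_2])` over the finite
`k`-choosable graphs `G` exists and is at most `2 d + 1`. -/
theorem result : ∀ (k : ℕ) (d : ℝ), 1 ≤ k →
    (∀ (V : Type) (_ : Fintype V) (G : SimpleGraph V), Choosable G k →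
      ∑ v, ((G.neighborSet v).ncard : ℝ) ≤ d * (Fintype.card V : ℝ)) →
    ∃ m : ℕ, IsGreatest (Val k) m ∧ (m : ℝ) ≤ 2 * d + 1 :=
  fun k d hk hd => upper k d hk hd

end Pool.Agent.Results.MP_069451_co.TwiceDegree
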