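import Pool.Agent.N703.DG.Core

/-!
# List-chromatic number of the doubled graph: `f(k) ≥ 2k - 1` and `f(k + 1) ≥ f(k) + 2`
(MP_069451_co)
-/

set_option autoImplicit false

namespace Pool.Agent.Results.MP_069451_co.TwiceMinusOne

open Pool.Agent.N703.DG

/-- For every `k ≥ 1` there is a finite `k`-choosable graph `H` with `χ_ℓ(H[I_2]) ≥ 2k - 1`, and
for every finite `k`-choosable graph `G` there is a finite `(k + 1)`-choosable graph `H` with
`χ_ℓ(H[I_2]) ≥ χ_ℓ(G[I_2]) + 2`. -/
theorem result : ∀ k : ℕ, 1 ≤ k →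
    (∃ (W : Type) (_ : Fintype W) (H : SimpleGraph W),
      Choosable H k ∧ 2 * k - 1 ≤ listChi (dbl H)) ∧
    ∀ (V : Type) (_ : Fintype V) (G : SimpleGraph V), Choosable G k →
      ∃ (W : Type) (_ : Fintype W) (H : SimpleGraph W),
        Choosable H (k + 1) ∧ listChi (dbl G) + 2 ≤ listChi (dbl H) :=
  fun k hk => lower k hk

end Pool.Agent.Results.MP_069451_co.TwiceMinusOne
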